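import Pool.Agent.WIR.StmtsB

/-! Row BEX of squad WIR: probability of a bad point at time `i`. -/

namespace Pool.Agent.WIR.H48

open scoped BigOperators

open Classical in
theorem bex (clu : CluStmt) (tlm : TlmStmt) (biu : BiuStmt) (hoe : HoeStmt) : BexStmt := by
  intro h b Q t hsys q j l y β i e hq htri hβ he hi
  set s : ℕ := q.2 - l with hs
  have hs40 : 40 ≤ s := by omega
  have hw0 : ∀ r : ℕ, 0 ≤ (s.choose r : ℝ) * (1 / 2 : ℝ) ^ s := fun r => by positivity
  -- the set S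
  set S : Finset ℕ := (Finset.range (s + 1)).filter (fun k => 2 * k + e ≤ s ∧
    badE Q t (4 * β) (j + k + 1 + i) (q.2 + y) ∧ 100 * (k + 1 + i) ≤ 31 * s + 1000) with hS
  -- the weight of S
  obtain ⟨biu1, biu2⟩ := biu s e he
  have hSw : ∑ k ∈ S, (s.choose (2 * k + e) : ℝ) * (1 / 2 : ℝ) ^ s ≤
      ((y : ℝ) + 3) / β + 2 * β / Real.sqrt ((s : ℝ) + 1) := by
    have hβ0 : (0 : ℝ) < β := by
      have : (4 : ℝ) ≤ β := by exact_mod_cast hβ
      linarith
    by_cases hy : y + 3 ≤ β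
    · have h1 := tlm (fun k => (s.choose (2 * k + e) : ℝ) * (1 / 2 : ℝ) ^ s) S (y + 3) β
        (2 / Real.sqrt (s + 1)) (by omega) hy (fun k => hw0 _) biu1 biu2 (by
          intro k hk k' hk' hkk
          rw [hS, Finset.mem_filter] at hk hk'
          have h2 := clu h b Q t hsys q j l y β (j + k + 1 + i) (j + k' + 1 + i) hq htri hβ
            (by omega) (by have := hk.2.2.2; omega) (by omega) hk.2.2.1 hk'.2.2.1
          omega)
      have e1 : (β : ℝ) * (2 / Real.sqrt ((s : ℝ) + 1)) = 2 * β / Real.sqrt ((s : ℝ) + 1) := by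
        ring
      rw [e1] at h1
      push_cast at h1
      exact h1
    · have h1 : ∑ k ∈ S, (s.choose (2 * k + e) : ℝ) * (1 / 2 : ℝ) ^ s ≤ 1 := by
        refine le_trans ?_ (biu1 (s + 1))
        exact Finset.sum_le_sum_of_subset_of_nonneg (Finset.filter_subset _ _)
          (fun k _ _ => hw0 _)
      have h2 : (1 : ℝ) ≤ ((y : ℝ) + 3) / β := by
        rw [le_div_iff₀ hβ0, one_mul]
        have : β ≤ y + 3 := by omega
        exact_mod_cast this
      have h3 : 0 ≤ 2 * (β : ℝ) / Real.sqrt ((s : ℝ) + 1) := by positivity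
      linarith
  -- the other points
  have hs0 : (0 : ℝ) < s := by
    have : (40 : ℝ) ≤ s := by exact_mod_cast hs40
    linarith
  have hoe1 := (hoe s (12 / 100 * s) (by omega) (by positivity)).1
  have hT : ∑ r ∈ (Finset.range (s + 1)).filter
      (fun r : ℕ => (12 / 100 * (s : ℝ)) ≤ 2 * (r : ℝ) - s),
      (s.choose r : ℝ) * (1 / 2 : ℝ) ^ s ≤ Real.exp (-((s : ℝ) / 200)) := by
    rw [← Finset.sum_mul]
    have h1 : (2 : ℝ) ^ s * (1 / 2 : ℝ) ^ s = 1 := by
      rw [← mul_pow]; norm_num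
    have h2 : (∑ r ∈ (Finset.range (s + 1)).filter
      (fun r : ℕ => (12 / 100 * (s : ℝ)) ≤ 2 * (r : ℝ) - s), (s.choose r : ℝ)) * (1 / 2 : ℝ) ^ s ≤
        (2 ^ s * Real.exp (-((12 / 100 * (s : ℝ)) ^ 2 / (2 * s)))) * (1 / 2 : ℝ) ^ s :=
      mul_le_mul_of_nonneg_right hoe1 (by positivity)
    have h3 : (2 ^ s * Real.exp (-((12 / 100 * (s : ℝ)) ^ 2 / (2 * s)))) * (1 / 2 : ℝ) ^ s =
        Real.exp (-((12 / 100 * (s : ℝ)) ^ 2 / (2 * s))) := by
      calc _ = (2 ^ s * (1 / 2 : ℝ) ^ s) * Real.exp (-((12 / 100 * (s : ℝ)) ^ 2 / (2 * s))) := by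
            ring
        _ = _ := by rw [h1, one_mul]
    rw [h3] at h2
    refine h2.trans (Real.exp_le_exp.2 ?_)
    have h4 : (12 / 100 * (s : ℝ)) ^ 2 / (2 * s) = 72 / 10000 * s := by
      field_simp
      ring
    rw [h4]
    linarith
  -- pointwise bound
  have hpt : ∀ r ∈ (Finset.range (s + 1)).filter (fun r => r % 2 = e),
      (s.choose r : ℝ) * (1 / 2 : ℝ) ^ s *
        (if badE Q t (4 * β) (j + r / 2 + 1 + i) (q.2 + y) then 1 else 0) ≤
      (if r / 2 ∈ S then (s.choose r : ℝ) * (1 / 2 : ℝ) ^ s else 0) +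
      (if (12 / 100 * (s : ℝ)) ≤ 2 * (r : ℝ) - s then (s.choose r : ℝ) * (1 / 2 : ℝ) ^ s
        else 0) := by
    intro r hr
    rw [Finset.mem_filter, Finset.mem_range] at hr
    have hw := hw0 r
    by_cases hb : badE Q t (4 * β) (j + r / 2 + 1 + i) (q.2 + y)
    · rw [if_pos hb, mul_one]
      by_cases hk : 100 * (r / 2 + 1 + i) ≤ 31 * s + 1000
      · have hmem : r / 2 ∈ S := by
          rw [hS, Finset.mem_filter, Finset.mem_range]
          exact ⟨by omega, by omega, hb, hk⟩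
        rw [if_pos hmem]
        have : (0 : ℝ) ≤ (if (12 / 100 * (s : ℝ)) ≤ 2 * (r : ℝ) - s then
          (s.choose r : ℝ) * (1 / 2 : ℝ) ^ s else 0) := by
          split_ifs <;> [exact hw; exact le_rfl]
        linarith
      · have hr2 : (12 / 100 * (s : ℝ)) ≤ 2 * (r : ℝ) - s := by
          have h1 : 112 * s ≤ 200 * r := by omega
          have h2 : (112 : ℝ) * s ≤ 200 * r := by exact_mod_cast h1
          linarith
        rw [if_pos hr2]
        have : (0 : ℝ) ≤ (if r / 2 ∈ S then (s.choose r : ℝ) * (1 / 2 : ℝ) ^ s else 0) := by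
          split_ifs <;> [exact hw; exact le_rfl]
        linarith
    · rw [if_neg hb, mul_zero]
      have h1 : (0 : ℝ) ≤ (if (12 / 100 * (s : ℝ)) ≤ 2 * (r : ℝ) - s then
          (s.choose r : ℝ) * (1 / 2 : ℝ) ^ s else 0) := by
        split_ifs <;> [exact hw; exact le_rfl]
      have h2 : (0 : ℝ) ≤ (if r / 2 ∈ S then (s.choose r : ℝ) * (1 / 2 : ℝ) ^ s else 0) := by
        split_ifs <;> [exact hw; exact le_rfl]
      linarith
  refine (Finset.sum_le_sum hpt).trans ?_
  rw [Finset.sum_add_distrib]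
  refine add_le_add ?_ ?_
  · refine le_trans ?_ hSw
    rw [← Finset.sum_filter]
    have himg : ∑ k ∈ S, (s.choose (2 * k + e) : ℝ) * (1 / 2 : ℝ) ^ s =
        ∑ r ∈ S.image (fun k => 2 * k + e), (s.choose r : ℝ) * (1 / 2 : ℝ) ^ s := by
      rw [Finset.sum_image]
      intro a _ a' _ haa
      have : 2 * a + e = 2 * a' + e := haa
      omega
    rw [himg]
    refine Finset.sum_le_sum_of_subset_of_nonneg ?_ (fun r _ _ => hw0 r)
    intro r hr
    rw [Finset.mem_filter, Finset.mem_filter] at hr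
    rw [Finset.mem_image]
    exact ⟨r / 2, hr.2, by have := hr.1.2; omega⟩
  · refine le_trans ?_ hT
    rw [← Finset.sum_filter]
    refine Finset.sum_le_sum_of_subset_of_nonneg ?_ (fun r _ _ => hw0 r)
    intro r hr
    rw [Finset.mem_filter, Finset.mem_filter] at hr
    rw [Finset.mem_filter]
    exact ⟨hr.1.1, hr.2⟩

end Pool.Agent.WIR.H48
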