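import Pool.Agent.WIR.StmtsA

/-! Row TSB of squad WIR: points of a triangle are black, and the triangle ends at `h`. -/

namespace Pool.Agent.WIR.H48

open scoped BigOperators

theorem eps_pos : 0 < eps := by
  unfold eps; norm_num

theorem eps_small : 100 * eps ≤ 1 := by
  unfold eps; norm_num

theorem tsb (tnz : TnzStmt) (tmv : TmvStmt) (tsz : TszStmt) : TsbStmt := by
  intro N t ξ j l q hξ ht hq htri
  obtain ⟨⟨hb1, hb2, _⟩, _, _⟩ := hq
  have hlt : t + 2 * q.1 - 2 < N := by omega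
  have hm0 := ((tnz N t ξ q.1 q.2 hξ hb1).1 hlt).1
  have hqj : q.1 ≤ j := htri.1
  have hlq : l ≤ q.2 := htri.2.1
  have hT := (tsz N q j l (mm N t ξ q.1 q.2) hm0 hqj hlq).2 htri
  have he0 := eps_pos
  have he1 := eps_small
  have h3 : (0 : ℝ) < 3 ^ N := by positivity
  have hmv : mm N t ξ j l = 9 ^ (j - q.1) * 2 ^ (q.2 - l) * mm N t ξ q.1 q.2 := by
    have h1 := tmv N t ξ q.1 l (j - q.1) (q.2 - l) hb1
    have e1 : l + (q.2 - l) = q.2 := by omega
    have e2 : q.1 + (j - q.1) = j := by omega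
    rw [e1, e2] at h1
    apply h1
    have h2 : (2 : ℝ) * (9 ^ (j - q.1) * 2 ^ (q.2 - l)) * |(mm N t ξ q.1 q.2 : ℝ)| < 3 ^ N := by
      push_cast at hT
      rw [abs_mul, abs_of_pos (by positivity : (0 : ℝ) < 9 ^ (j - q.1) * 2 ^ (q.2 - l))] at hT
      nlinarith
    exact_mod_cast h2
  refine ⟨hmv, by omega, ?_, ?_⟩
  · -- j ≤ h
    have hne : mm N t ξ j l ≠ 0 := by
      rw [hmv]
      have : (9 : ℤ) ^ (j - q.1) ≠ 0 := by positivity
      have : (2 : ℤ) ^ (q.2 - l) ≠ 0 := by positivity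
      positivity
    have hj1 : 1 ≤ j := by omega
    have hlt2 : t + 2 * j - 2 < N := by
      by_contra hcon
      exact hne ((tnz N t ξ j l hξ hj1).2 (by omega))
    have hdvd := ((tnz N t ξ j l hξ hj1).1 hlt2).2
    have hle : (3 : ℤ) ^ (t + 2 * j - 2) ≤ |mm N t ξ j l| :=
      Int.le_of_dvd (abs_pos.2 hne) ((dvd_abs _ _).2 hdvd)
    have hle2 : (3 : ℝ) ^ (t + 2 * j - 2) ≤ |(mm N t ξ j l : ℝ)| := by exact_mod_cast hle
    rw [← hmv] at hT
    have hle3 : (3 : ℝ) ^ (t + 2 * j - 2) ≤ eps * 3 ^ N := hle2.trans hT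
    by_contra hcon
    have hN : N ≤ (t + 2 * j - 2) + 1 := by omega
    have h4 : (3 : ℝ) ^ N ≤ 3 ^ ((t + 2 * j - 2) + 1) := pow_le_pow_right₀ (by norm_num) hN
    rw [pow_succ] at h4
    nlinarith
  · rw [hmv]; exact hT

end Pool.Agent.WIR.H48
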